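import Pool.Agent.Y949.KW.Mom
import Pool.Agent.Y994.KW.Stm2

/-!
# Project KW, part two: fourth moment of the oscillation
-/

set_option autoImplicit false

namespace Pool.Agent.Y475.KW

open Y994.KW Finset

/-- the displacement of a prefix of the word -/
theorem Xr_eq (hLOC : S_LOC) (n W k : ℕ) (hn : 1 ≤ n) (hk : k ≤ W)
    (c : Fin W → Fin (2 * n + 1) → Bool) :
    Yr (fun M (c : Fin M → Fin (2 * n + 1) → Bool) => (X n M c : ℝ)) c k
      = (dsp n 0 (k : ℤ) (cfg n W c) : ℝ) := by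
  unfold Yr X
  show ((dsp n 0 (k : ℤ) (cfg n k (rst k c)) : ℤ) : ℝ) = _
  have h := hLOC n 0 k 0 (cfg n k (rst k c)) (cfg n W c) hn (Int.natCast_nonneg k) ?_
  · rw [add_zero, add_zero] at h
    exact_mod_cast h.symm
  · intro j t h0 h1
    have hk' : (k : ℤ) ≤ W := by exact_mod_cast hk
    have ht : t.toNat < W := by omega
    unfold cfg rst
    rw [add_zero, dif_pos ⟨h0, by linarith⟩, dif_pos ⟨h0, h1⟩]
    simp only
    rw [dif_pos ht]

/-- the two averages agree -/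
theorem Ea_eq (n M : ℕ) (f : (Fin M → Fin (2 * n + 1) → Bool) → ℝ) :
    Ea M f = H906K.Ex n M f := by
  unfold Ea H906K.Ex
  congr 1
  rw [Fintype.card_fun, Fintype.card_bool, Fintype.card_fin]
  push_cast
  rw [← pow_mul]

/-- the oscillation in a window -/
noncomputable def osc (n m : ℕ) (c : Fin (m + (2 * n + 1)) → Fin (2 * n + 1) → Bool) : ℝ :=
  (Finset.range (2 * n + 1 + 1)).sup' (Finset.nonempty_range_iff.2 (by omega)) (fun l =>
    |(dsp n 0 ((m + l : ℕ) : ℤ) (cfg n (m + (2 * n + 1)) c) : ℝ)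
      - dsp n 0 (m : ℤ) (cfg n (m + (2 * n + 1)) c)|)

theorem t_OSC : S_OSCT → S_LOC → S_OSC := by
  rintro ⟨C, κ, hC, hκ, hT⟩ hLOC
  set D : ℝ := C * (1 + 32 * (Nat.factorial 12 : ℝ) / κ ^ 12) with hD
  have hDp : 0 < D := by positivity
  have hB1 : (1 : ℝ) ≤ D + 1 := by linarith
  have hB4 : D + 1 ≤ (D + 1) ^ 4 := by
    calc D + 1 = (D + 1) ^ 1 := (pow_one _).symm
      _ ≤ (D + 1) ^ 4 := pow_le_pow_right₀ hB1 (by norm_num)
  refine ⟨D + 1, by linarith, ?_⟩
  intro n hn m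
  have hL : (0 : ℝ) < 2 * n + 1 := by positivity
  refine ⟨osc n m, ?_, ?_⟩
  · intro c l hl
    rw [Xr_eq hLOC n _ _ hn (by omega) c, Xr_eq hLOC n _ _ hn (by omega) c]
    exact Finset.le_sup' (f := fun l : ℕ =>
      |(dsp n 0 ((m + l : ℕ) : ℤ) (cfg n (m + (2 * n + 1)) c) : ℝ)
        - dsp n 0 (m : ℤ) (cfg n (m + (2 * n + 1)) c)|) (Finset.mem_range.2 (by omega))
  · rw [Ea_eq]
    have h := Y949.KW.moment n (m + (2 * n + 1)) (2 * n + 1) hL (osc n m) (fun c => ?_) C κ hC hκ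
      (fun x hx => ?_)
    · refine h.trans ?_
      rw [mul_pow, mul_comm]
      refine mul_le_mul_of_nonneg_right ?_ (by positivity)
      linarith
    · unfold osc
      refine le_trans (abs_nonneg _) (Finset.le_sup' (f := fun l : ℕ =>
        |(dsp n 0 ((m + l : ℕ) : ℤ) (cfg n (m + (2 * n + 1)) c) : ℝ)
          - dsp n 0 (m : ℤ) (cfg n (m + (2 * n + 1)) c)|) (b := 0) (Finset.mem_range.2 (by omega)))
    · refine (Y949.KW.pr_mono n _ _ _ fun c hc => ?_).trans (hT n m x hn hx)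
      unfold osc at hc
      obtain ⟨l, hl, hl'⟩ := (Finset.le_sup'_iff _).1 hc
      exact ⟨l, by rw [Finset.mem_range] at hl; omega, hl'⟩

end Pool.Agent.Y475.KW
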