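import Pool.Agent.Y941.KW.Tail
import Pool.Agent.Y949.KW.Mom
import Pool.Agent.Y994.KW.Stm2

/-!
# Project KW, part two: the oscillation of the displacement in windows of `2n+1` rows
-/

set_option autoImplicit false

namespace Pool.Agent.Y475.KW

open Y994.KW Finset
open Pool.Agent.Y941.KW (pr_le_one pr_or pr_mono pr_nonneg per_cfg bad S_T1LOC cfg_shift)

/-! ## crossings of larger rectangles -/

theorem Rc_mono {N u v v' ε : ℤ} (h : v ≤ v') : Rc N u v ε ⊆ Rc N u v' ε := by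
  intro x hx
  unfold Rc at hx ⊢
  simp only [Set.mem_ofPred_eq] at hx ⊢
  exact ⟨hx.1, hx.2.1, hx.2.2.1, hx.2.2.2.1.trans h, hx.2.2.2.2⟩

theorem DC_mono {N u v v' ε : ℤ} {r : ℕ} {σ : Cfg} (h : v ≤ v') (hd : DC N u v ε r σ) :
    DC N u v' ε r σ := by
  obtain ⟨P, h1, h2, h3⟩ := hd
  exact ⟨P, fun i => (h1 i).trans (Rc_mono h), h2, h3⟩

/-! ## long displacements between the levels `a` and `b` -/

/-- the orbit stays below the level `b` before it hits it -/
theorem below (hV : S_VAL) (n : ℕ) (a b : ℤ) (hb : a ≤ b) (σ : Cfg) (hn : 1 ≤ n) (hσ : Per n σ)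
    (i : ℕ) (hi : ∀ k : ℕ, k < i → ∀ q : ℤ, orb n a σ k ≠ up q b) :
    ∀ k : ℕ, k ≤ i → (orb n a σ k).1.2 ≤ b ∧ (orb n a σ k).2.2 ≤ b := by
  intro k
  induction k with
  | zero =>
    intro _
    simp only [orb, Function.iterate_zero, id, up]
    exact ⟨hb, hb⟩
  | succ k ih =>
    intro hk
    have h1 := ih (by omega)
    have h2 := hi k (by omega)
    have h3 : orb n a σ (k + 1) = wk n a σ (orb n a σ k) := by
      unfold orb
      rw [Function.iterate_succ_apply']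
    obtain ⟨hok, ha1, ha2, _⟩ := hV n a σ k hn hσ
    rw [h3]
    generalize orb n a σ k = s at h1 h2 hok ha1 ha2
    obtain ⟨q, t, h | h | h | h⟩ := hok
    · subst h
      have ht : t ≤ b := h1.1
      have ht' : t ≠ b := by
        rintro rfl
        exact h2 q rfl
      unfold wk nxt rot up
      split_ifs <;> simp <;> omega
    · subst h
      have ht : t ≤ b := h1.1
      unfold wk nxt rot dn
      split_ifs <;> simp <;> omega
    · subst h
      have ht : t ≤ b := h1.1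
      have ht' : t + 1 ≤ b := h1.2
      unfold wk nxt rot
      split_ifs <;> simp <;> omega
    · subst h
      have ht : t + 1 ≤ b := h1.1
      have ht' : t ≤ b := h1.2
      unfold wk nxt rot
      split_ifs <;> simp <;> omega

theorem dc_of_large (hV : S_VAL) (hI : S_INJ) (hH : S_HIT) (hT : S_TRAVG) (n : ℕ) (a b : ℤ)
    (hab : a ≤ b) (hn : 1 ≤ n) (σ : Cfg) (hσ : Per n σ) (r : ℕ)
    (hr : 2 * (2 * n + 1) * ((r : ℤ) + 2) ≤ |dsp n a b σ|) :
    DC (2 * n + 1) a b (a + 1) r σ := by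
  obtain ⟨i, hi1, hi2⟩ := hH n a b σ hn hσ hab
  have hb := below hV n a b hab σ hn hσ i hi2
  refine hT n σ a b (a + 1) (orb n a σ) i r hn hσ ?_ ?_ ?_ ?_ ?_
  · intro k hk
    obtain ⟨h1, h2, h3, h4, h5⟩ := hV n a σ k hn hσ
    exact ⟨h1, h2, (hb k hk).1, h3, (hb k hk).2, h5⟩
  · intro k hk
    unfold orb
    rw [Function.iterate_succ_apply']
  · right
    refine ⟨by ring_nf; norm_num, ?_⟩
    intro k hk q hq hdiv
    obtain ⟨z, hz⟩ := hdiv
    have h1 := (hI n a σ hn hσ 0 k z).2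
    apply h1
    rw [hq]
    have h0 : orb n a σ 0 = up (2 * n) a := rfl
    rw [h0]
    unfold dn sh rev up
    simp only [Prod.mk.injEq, and_true]
    constructor <;> linarith
  · intro j hj l hl z
    exact hI n a σ hn hσ j l z
  · have h0 : orb n a σ 0 = up (2 * n) a := rfl
    rw [h0, hi1]
    unfold up
    have : (2 * (n : ℤ) + dsp n a b σ) - 2 * n = dsp n a b σ := by ring
    simp only
    rw [this]
    exact hr

/-! ## the probability for given parameters -/

theorem osc_m (hV : S_VAL) (hI : S_INJ) (hH : S_HIT) (hTR : S_TRAVG) (hCOMP : S_COMP)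
    (hMONO : S_T1MONO) (hT : S_T1LOC) {c C q : ℝ}
    (hc : ∀ n : ℕ, 1 ≤ n →
      c ≤ pr n (2 * n + 1) (fun ω => T1 n (cfg n (2 * n + 1) ω) 0 (2 * n + 1)))
    (hD : ∀ (n M : ℕ) (u v ε : ℤ) (m r : ℕ), 1 ≤ n →
      1 ≤ m → 0 ≤ u → u ≤ v → v ≤ M → v - u ≤ m * (2 * n + 1) →
      pr n M (fun c => DC (2 * n + 1) u v ε r (cfg n M c)) ≤ C * m * q ^ (r / (C * m) : ℝ))
    (n M : ℕ) (x : ℝ) (m r : ℕ) (hn : 1 ≤ n) (hm : 1 ≤ m) (hr : 8 * ((r : ℝ) + 2) ≤ x) :
    pr n (M + (2 * n + 1)) (fun c => ∃ l : ℕ, l ≤ 2 * n + 1 ∧ x * (2 * n + 1) ≤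
      |(dsp n 0 ((M + l : ℕ) : ℤ) (cfg n (M + (2 * n + 1)) c) : ℝ)
        - dsp n 0 (M : ℤ) (cfg n (M + (2 * n + 1)) c)|) ≤
      2 * (1 - c) ^ m + 2 * (C * ((2 * m : ℕ) : ℝ) * q ^ (r / (C * ((2 * m : ℕ) : ℝ)) : ℝ)) := by
  classical
  have hc0 : 0 ≤ 1 - c := by
    have h1 := hc n hn
    have h2 := pr_le_one (n := n) (M := 2 * n + 1)
      (fun ω => T1 n (cfg n (2 * n + 1) ω) 0 (2 * n + 1))
    linarith
  obtain ⟨W, hW⟩ : ∃ W : ℕ, W = M + (2 * n + 1) := ⟨_, rfl⟩
  obtain ⟨lo, hlo0, hloM, hlom, B1, hB1, hlo⟩ : ∃ lo : ℤ, 0 ≤ lo ∧ lo ≤ M ∧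
      (M : ℤ) - lo ≤ m * (2 * n + 1) ∧ ∃ B1 : (Fin W → Fin (2 * n + 1) → Bool) → Prop,
      pr n W B1 ≤ (1 - c) ^ m ∧
      ∀ ω, ¬ B1 ω → (lo = 0 ∨ T1 n (cfg n W ω) lo M) := by
    rcases Nat.lt_or_ge M (m * (2 * n + 1)) with h1 | h1
    · refine ⟨0, le_rfl, by positivity, ?_, fun _ => False, ?_, fun _ _ => Or.inl rfl⟩
      · have : ((M : ℕ) : ℤ) ≤ ((m * (2 * n + 1) : ℕ) : ℤ) := by exact_mod_cast h1.le
        push_cast at this
        linarith
      · have h2 : pr n W (fun _ => False) = 0 := by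
          rw [Pool.Agent.Y941.KW.pr_eq]
          simp
        rw [h2]
        positivity
    · obtain ⟨u, hu⟩ := Nat.exists_eq_add_of_le' h1
      refine ⟨(u : ℤ), by positivity, by rw [hu]; push_cast; nlinarith, ?_,
        fun ω => ∀ i : Fin m, ¬ T1 n (cfg n W ω) (((u + i * (2 * n + 1) : ℕ)) : ℤ)
          (((u + i * (2 * n + 1) : ℕ) : ℤ) + (2 * n + 1)), ?_, ?_⟩
      · rw [hu]; push_cast; linarith
      · exact bad hT hc n W m u hn (by omega)
      · intro ω hω
        push Not at hω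
        obtain ⟨i, hi⟩ := hω
        right
        refine hMONO n _ u _ _ M hn (per_cfg n _ ω) ?_ ?_ ?_ hi
        · push_cast; nlinarith [Nat.zero_le (i : ℕ)]
        · linarith
        · have h2 := Nat.mul_le_mul_right (2 * n + 1) (Nat.succ_le_of_lt i.2)
          rw [Nat.succ_mul] at h2
          have h3 : (u + i * (2 * n + 1) + (2 * n + 1) : ℕ) ≤ M := by omega
          have h4 : ((u + i * (2 * n + 1) + (2 * n + 1) : ℕ) : ℤ) ≤ M := by exact_mod_cast h3
          push_cast at h4 ⊢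
          linarith
  have hmz : (1 : ℤ) * (2 * n + 1) ≤ m * (2 * n + 1) := by
    apply mul_le_mul_of_nonneg_right _ (by positivity)
    exact_mod_cast hm
  have hWz : (W : ℤ) = M + (2 * n + 1) := by rw [hW]; push_cast; ring
  have hnz : (0 : ℤ) ≤ n := by positivity
  have hd1 := hD n W lo W (0 + 1) (2 * m) r hn (by omega) hlo0 (by linarith) le_rfl
    (by push_cast; linarith)
  have hd2 := hD n W M W (M + 1) (2 * m) r hn (by omega) (by positivity) (by linarith) le_rfl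
    (by push_cast; linarith)
  rw [← hW]
  have hmain : pr n W (fun c => ∃ l : ℕ, l ≤ 2 * n + 1 ∧ x * (2 * n + 1) ≤
      |(dsp n 0 ((M + l : ℕ) : ℤ) (cfg n W c) : ℝ) - dsp n 0 (M : ℤ) (cfg n W c)|) ≤
      pr n W (fun ω => B1 ω ∨ (DC (2 * n + 1) lo W (0 + 1) r (cfg n W ω) ∨
        DC (2 * n + 1) M W (M + 1) r (cfg n W ω))) := by
    apply pr_mono
    rintro ω ⟨l, hl, hω⟩
    by_contra hcon
    rw [not_or] at hcon
    obtain ⟨hb1, hdc⟩ := hcon
    apply hdc
    have hper := per_cfg n W ω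
    have hlz : ((M + l : ℕ) : ℤ) ≤ W := by
      rw [hW]; push_cast; have : (l : ℤ) ≤ 2 * n + 1 := by exact_mod_cast hl
      linarith
    have hMl : (M : ℤ) ≤ ((M + l : ℕ) : ℤ) := by push_cast; linarith [Int.natCast_nonneg l]
    have hn0 : (0 : ℝ) < 2 * n + 1 := by positivity
    rcases le_or_gt (2 * (2 * (n : ℤ) + 1) * ((r : ℤ) + 2))
      |dsp n M ((M + l : ℕ) : ℤ) (cfg n W ω)| with hS | hS
    · right
      exact DC_mono hlz (dc_of_large hV hI hH hTR n M ((M + l : ℕ) : ℤ) hMl hn _ hper r hS)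
    · have hE : 4 * (2 * (n : ℤ) + 1) * ((r : ℤ) + 2) ≤
          |dsp n 0 ((M + l : ℕ) : ℤ) (cfg n W ω) - dsp n 0 M (cfg n W ω)
            - dsp n M ((M + l : ℕ) : ℤ) (cfg n W ω)| := by
        have h5 : 8 * (2 * (n : ℝ) + 1) * (r + 2) ≤ x * (2 * n + 1) := by
          have := mul_le_mul_of_nonneg_right hr hn0.le
          linarith
        have h6 := h5.trans hω
        have h7 : 8 * (2 * (n : ℤ) + 1) * (r + 2) ≤
            |dsp n 0 ((M + l : ℕ) : ℤ) (cfg n W ω) - dsp n 0 M (cfg n W ω)| := by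
          exact_mod_cast h6
        have h8 : 0 ≤ 2 * (2 * (n : ℤ) + 1) * ((r : ℤ) + 2) := by positivity
        have h9 : |dsp n 0 ((M + l : ℕ) : ℤ) (cfg n W ω) - dsp n 0 M (cfg n W ω)| ≤
            |dsp n 0 ((M + l : ℕ) : ℤ) (cfg n W ω) - dsp n 0 M (cfg n W ω)
            - dsp n M ((M + l : ℕ) : ℤ) (cfg n W ω)| +
            |dsp n M ((M + l : ℕ) : ℤ) (cfg n W ω)| := by
          have := abs_add_le (dsp n 0 ((M + l : ℕ) : ℤ) (cfg n W ω) - dsp n 0 M (cfg n W ω)
            - dsp n M ((M + l : ℕ) : ℤ) (cfg n W ω)) (dsp n M ((M + l : ℕ) : ℤ) (cfg n W ω))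
          rwa [sub_add_cancel] at this
        linarith
      have h := hCOMP n (cfg n W ω) 0 lo M ((M + l : ℕ) : ℤ) ((M + l : ℕ) : ℤ) hn hper hlo0 hloM
        hMl le_rfl (hlo ω hb1) (Or.inl rfl) r hE
      rcases h with h | h
      · exact Or.inl (DC_mono hlz h)
      · exact Or.inr (DC_mono hlz h)
  refine hmain.trans ((pr_or _ _).trans ?_)
  have h8 := pr_or (n := n) (M := W)
    (fun ω => DC (2 * n + 1) lo W (0 + 1) r (cfg n W ω))
    (fun ω => DC (2 * n + 1) M W (M + 1) r (cfg n W ω))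
  have h9 := add_le_add hB1 (h8.trans (add_le_add hd1 hd2))
  refine h9.trans ?_
  have h10 : 0 ≤ (1 - c) ^ m := by positivity
  linarith

/-! ## choice of the parameters -/

/-- the passage from the parameters to the tail -/
theorem tail_of {c C q : ℝ} (hC : 0 < C) (hq0 : 0 < q) (hq1 : q < 1) (hc0 : 0 < c) (hc1 : c ≤ 1) :
    ∃ C' κ : ℝ, 0 < C' ∧ 0 < κ ∧ ∀ x p : ℝ, 0 ≤ x → p ≤ 1 →
      (∀ m r : ℕ, 1 ≤ m → 8 * ((r : ℝ) + 2) ≤ x → p ≤ 2 * (1 - c) ^ m +
        2 * (C * ((2 * m : ℕ) : ℝ) * q ^ (r / (C * ((2 * m : ℕ) : ℝ)) : ℝ))) →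
      p ≤ C' * Real.exp (-κ * √x) := by
  have hlq : Real.log q < 0 := Real.log_neg hq0 hq1
  set κ1 : ℝ := -Real.log q / (128 * C) with hκ1
  have hκ1p : 0 < κ1 := div_pos (by linarith) (by positivity)
  set κ : ℝ := min c (κ1 / 2) with hκ
  have hκp : 0 < κ := lt_min hc0 (by positivity)
  refine ⟨Real.exp (6 * κ) + (2 + 16 * C / κ1), κ, by positivity, hκp, ?_⟩
  intro x p hx hp hmr
  rcases lt_or_ge x 32 with hx16 | hx16
  · refine hp.trans ?_
    have h1 : √x ≤ 6 := by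
      rw [show (6 : ℝ) = √36 by
        rw [show (36 : ℝ) = 6 ^ 2 by norm_num, Real.sqrt_sq (by norm_num)]]
      exact Real.sqrt_le_sqrt (by linarith)
    have h2 : 1 ≤ Real.exp (6 * κ) * Real.exp (-κ * √x) := by
      rw [← Real.exp_add]
      apply Real.one_le_exp
      nlinarith
    have h3 : 0 ≤ (2 + 16 * C / κ1) * Real.exp (-κ * √x) := by positivity
    rw [add_mul]
    linarith
  · have hsx : 4 ≤ √x := by
      rw [show (4 : ℝ) = √16 by
        rw [show (16 : ℝ) = 4 ^ 2 by norm_num, Real.sqrt_sq (by norm_num)]]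
      exact Real.sqrt_le_sqrt (by linarith)
    have hxx : √x * √x = x := Real.mul_self_sqrt hx
    set m : ℕ := ⌈√x⌉₊ with hm
    have hm1 : √x ≤ m := Nat.le_ceil _
    have hm2 : (m : ℝ) ≤ 2 * √x := by
      have := (Nat.ceil_lt_add_one (Real.sqrt_nonneg x)).le
      linarith
    have hm0 : 1 ≤ m := by
      have : (1 : ℝ) ≤ m := by linarith
      exact_mod_cast this
    set k : ℕ := ⌊x / 8⌋₊ with hk
    have hk1 : (k : ℝ) ≤ x / 8 := Nat.floor_le (by positivity)
    have hk2 : x / 8 < k + 1 := Nat.lt_floor_add_one _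
    have hk3 : 2 ≤ k := by
      have : (3 : ℝ) < k + 1 := by linarith
      have h2 : (3 : ℕ) < k + 1 := by exact_mod_cast this
      omega
    obtain ⟨r, hr⟩ := Nat.exists_eq_add_of_le' hk3
    have hr' : (k : ℝ) = r + 2 := by rw [hr]; push_cast; ring
    have hrx : x / 32 ≤ r := by linarith
    have h1 := hmr m r hm0 (by linarith)
    refine h1.trans ?_
    have hmp : (0 : ℝ) < m := by exact_mod_cast hm0
    have h2 : (1 - c) ^ m ≤ Real.exp (-κ * √x) := by
      calc (1 - c) ^ m ≤ (Real.exp (-c)) ^ m := by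
            apply pow_le_pow_left₀ (by linarith)
            have := Real.add_one_le_exp (-c)
            linarith
        _ = Real.exp (-c * m) := by rw [← Real.exp_nat_mul]; congr 1; ring
        _ ≤ Real.exp (-κ * √x) := by
            apply Real.exp_le_exp.2
            have h3 : κ ≤ c := min_le_left _ _
            nlinarith
    have h3 : q ^ (r / (C * ((2 * m : ℕ) : ℝ)) : ℝ) ≤ Real.exp (-κ1 * √x) := by
      rw [Real.rpow_def_of_pos hq0]
      apply Real.exp_le_exp.2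
      have h4 : √x / (128 * C) ≤ r / (C * ((2 * m : ℕ) : ℝ)) := by
        rw [div_le_div_iff₀ (by positivity) (by push_cast; positivity)]
        push_cast
        have h5 : √x * (C * (2 * m)) ≤ √x * (C * (2 * (2 * √x))) := by gcongr
        have h6 : √x * (C * (2 * (2 * √x))) = 4 * C * x := by
          calc _ = 4 * C * (√x * √x) := by ring
            _ = _ := by rw [hxx]
        have h7 : 4 * C * x ≤ r * (128 * C) := by nlinarith
        linarith
      have h5 : Real.log q * (r / (C * ((2 * m : ℕ) : ℝ))) ≤ Real.log q * (√x / (128 * C)) :=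
        mul_le_mul_of_nonpos_left h4 hlq.le
      refine h5.trans (le_of_eq ?_)
      rw [hκ1]
      ring
    have h4 : √x * Real.exp (-κ1 * √x) ≤ 2 / κ1 * Real.exp (-κ * √x) := by
      have h5 : κ1 / 2 * √x ≤ Real.exp (κ1 / 2 * √x) := by
        have := Real.add_one_le_exp (κ1 / 2 * √x)
        linarith
      have h6 : √x ≤ 2 / κ1 * Real.exp (κ1 / 2 * √x) := by
        have h7 : √x = 2 / κ1 * (κ1 / 2 * √x) := by field_simp
        rw [h7]
        have := mul_le_mul_of_nonneg_left h5 (by positivity : 0 ≤ 2 / κ1)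
        rw [← h7]
        rw [← h7] at this
        exact this
      calc √x * Real.exp (-κ1 * √x) ≤ (2 / κ1 * Real.exp (κ1 / 2 * √x)) * Real.exp (-κ1 * √x) :=
            mul_le_mul_of_nonneg_right h6 (by positivity)
        _ = 2 / κ1 * Real.exp (-(κ1 / 2) * √x) := by
            rw [mul_assoc, ← Real.exp_add]
            congr 2
            ring
        _ ≤ 2 / κ1 * Real.exp (-κ * √x) := by
            apply mul_le_mul_of_nonneg_left _ (by positivity)
            apply Real.exp_le_exp.2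
            have h3 : κ ≤ κ1 / 2 := min_le_right _ _
            nlinarith [Real.sqrt_nonneg x]
    have h5 : C * ((2 * m : ℕ) : ℝ) * q ^ (r / (C * ((2 * m : ℕ) : ℝ)) : ℝ) ≤
        8 * C / κ1 * Real.exp (-κ * √x) := by
      calc C * ((2 * m : ℕ) : ℝ) * q ^ (r / (C * ((2 * m : ℕ) : ℝ)) : ℝ)
          ≤ C * (2 * (2 * √x)) * Real.exp (-κ1 * √x) := by
            push_cast at h3 ⊢
            gcongr
        _ = 4 * C * (√x * Real.exp (-κ1 * √x)) := by ring
        _ ≤ 4 * C * (2 / κ1 * Real.exp (-κ * √x)) := by gcongr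
        _ = _ := by ring
    have h6 : 0 ≤ Real.exp (6 * κ) * Real.exp (-κ * √x) := by positivity
    have h7 : (Real.exp (6 * κ) + (2 + 16 * C / κ1)) * Real.exp (-κ * √x) =
        Real.exp (6 * κ) * Real.exp (-κ * √x) + 2 * Real.exp (-κ * √x) +
        2 * (8 * C / κ1 * Real.exp (-κ * √x)) := by ring
    rw [h7]
    linarith

theorem t_OSCT : S_VAL → S_INJ → S_HIT → S_TRAVG → S_COMP → S_DCP → S_T1P → S_LOC → S_T1MONO →
    Pool.Agent.Y941.KW.S_T1LOC → S_OSCT := by
  rintro hV hI hH hTR hCOMP ⟨C, q, hC, hq0, hq1, hD⟩ ⟨c, hc0, hc⟩ _ hMONO hT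
  have hc1 : c ≤ 1 := (hc 1 le_rfl).trans (pr_le_one _)
  obtain ⟨C', κ, hC', hκ, h⟩ := tail_of hC hq0 hq1 hc0 hc1
  refine ⟨C', κ, hC', hκ, ?_⟩
  intro n m x hn hx
  exact h x _ hx (pr_le_one _) fun k r hk hr =>
    osc_m hV hI hH hTR hCOMP hMONO hT hc hD n m x k r hn hk hr

end Pool.Agent.Y475.KW
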